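import Mathlib

set_option autoImplicit false

namespace Pool.Agent.Results.MP_b7f7f4_co.Blocks

open Finset Function

/-- no symbol repeats in a row or a column -/
def NoRepeat {I S : Type} (A : I → I → S) : Prop :=
  (∀ r, Injective (A r)) ∧ ∀ c, Injective fun r => A r c

/-- k-weight of a latin square -/
def IsWeight {n : ℕ} (L : Fin n → Fin n → Fin n) (k : ℤ) (θ : Fin n → Fin n → ℤ) : Prop :=
  (∀ r, ∑ c, θ r c = k) ∧ (∀ c, ∑ r, θ r c = k) ∧
    ∀ s, ∑ r, ∑ c, (if L r c = s then θ r c else 0) = k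

/-- the set of symbols used by an array -/
def symbols {I S : Type} (A : I → I → S) : Set S := {s | ∃ a b, A a b = s}

abbrev V (n : ℕ) := (Fin n ⊕ Fin n ⊕ Fin n) → ℤ

def v {n : ℕ} (L : Fin n → Fin n → Fin n) (p : Fin n × Fin n) : V n :=
  Pi.single (Sum.inl p.1) 1 + Pi.single (Sum.inr (Sum.inl p.2)) 1 +
    Pi.single (Sum.inr (Sum.inr (L p.1 p.2))) 1

lemma exists_char {n : ℕ} (L : Fin n → Fin n → Fin n) (h : ¬ ∃ θ, IsWeight L 1 θ) :
    ∃ f g k : Fin n → AddCircle (1 : ℚ), (∀ r c, f r + g c + k (L r c) = 0) ∧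
      ∑ r, f r + ∑ c, g c + ∑ s, k s ≠ 0 := by
  classical
  let Λ : Submodule ℤ (V n) := Submodule.span ℤ (Set.range (v L))
  have h1 : (fun _ => 1 : V n) ∉ Λ := by
    intro hm
    obtain ⟨c, hc⟩ := (Submodule.mem_span_range_iff_exists_fun ℤ).1 hm
    apply h
    refine ⟨fun r s => c (r, s), fun r => ?_, fun s => ?_, fun s => ?_⟩
    · have := congrFun hc (Sum.inl r)
      simp only [v, Finset.sum_apply, Pi.smul_apply, Pi.add_apply, Pi.single_apply,
        Fintype.sum_prod_type] at this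
      rw [← this, Finset.sum_comm]
      simp
    · have := congrFun hc (Sum.inr (Sum.inl s))
      simp only [v, Finset.sum_apply, Pi.smul_apply, Pi.add_apply, Pi.single_apply,
        Fintype.sum_prod_type] at this
      simpa using this
    · have := congrFun hc (Sum.inr (Sum.inr s))
      simp only [v, Finset.sum_apply, Pi.smul_apply, Pi.add_apply, Pi.single_apply,
        Fintype.sum_prod_type] at this
      simpa [eq_comm] using this
  have h2 : Λ.mkQ (fun _ => 1 : V n) ≠ 0 := by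
    simpa [Submodule.Quotient.mk_eq_zero] using h1
  obtain ⟨χ, hχ⟩ := CharacterModule.exists_character_apply_ne_zero_of_ne_zero h2
  let φ : V n →+ AddCircle (1 : ℚ) :=
    (show (V n ⧸ Λ) →+ AddCircle (1 : ℚ) from χ).comp Λ.mkQ.toAddMonoidHom
  have hφ : ∀ x, φ x = χ (Λ.mkQ x) := fun _ => rfl
  refine ⟨fun r => φ (Pi.single (Sum.inl r) 1), fun c => φ (Pi.single (Sum.inr (Sum.inl c)) 1),
    fun s => φ (Pi.single (Sum.inr (Sum.inr s)) 1), fun r c => ?_, ?_⟩
  · rw [← map_add, ← map_add, hφ]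
    have hm : v L (r, c) ∈ Λ := Submodule.subset_span ⟨(r, c), rfl⟩
    have : Λ.mkQ (v L (r, c)) = 0 := by
      simpa [Submodule.Quotient.mk_eq_zero] using hm
    simp only [v] at this
    rw [this, map_zero]
  · rw [← map_sum, ← map_sum, ← map_sum, ← map_add, ← map_add, hφ]
    convert hχ using 3
    funext i
    rcases i with i | i | i <;> simp [Finset.sum_apply, Pi.single_apply]

lemma cyc (K : AddSubgroup (AddCircle (1 : ℚ))) [Finite K] : IsAddCyclic K := by
  classical
  have := Fintype.ofFinite K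
  refine isAddCyclic_of_card_nsmul_eq_zero_le fun n hn => ?_
  have h := AddCircle.card_torsion_le_of_isSMulRegular (1 : ℚ) n hn.ne'
    (.of_right_eq_zero_of_smul fun _ ↦ by simp [hn.ne'])
  have h2 : (((univ.filter fun a : K => n • a = 0).map
      ⟨Subtype.val, Subtype.val_injective⟩ : Finset _) : Set (AddCircle (1 : ℚ))) ⊆
      {x | n • x = 0} := by
    intro x hx
    simp only [coe_map, Function.Embedding.coeFn_mk, Set.mem_image, coe_filter, mem_univ,
      true_and, Set.mem_ofPred_eq] at hx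
    obtain ⟨a, ha, rfl⟩ := hx
    have := congrArg Subtype.val ha
    simpa using this
  have h3 := (Set.encard_le_encard h2).trans h
  rw [Set.encard_coe_eq_coe_finsetCard, card_map] at h3
  exact_mod_cast h3

lemma card_shift {n : ℕ} {A : Type} [AddCommGroup A] [DecidableEq A] (e : Fin n → Fin n)
    (he : Injective e) (g h : Fin n → A) (a : A) (H : ∀ c, a + g c = h (e c)) (b : A) :
    #{c | g c = b} = #{s | h s = a + b} := by
  have hb : Bijective e := Finite.injective_iff_bijective.1 he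
  refine Finset.card_bij (fun c _ => e c) (fun c hc => ?_) (fun c _ c' _ hcc => he hcc)
    (fun s hs => ?_)
  · simp only [mem_filter, mem_univ, true_and] at hc ⊢
    rw [← H, hc]
  · obtain ⟨c, rfl⟩ := hb.2 s
    simp only [mem_filter, mem_univ, true_and] at hs ⊢
    exact ⟨c, by rw [← H] at hs; exact add_left_cancel hs, rfl⟩

lemma exists_zmod {n : ℕ} (L : Fin n → Fin n → Fin n) (hL : NoRepeat L)
    (h : ¬ ∃ θ, IsWeight L 1 θ) :
    ∃ (N : ℕ) (_ : NeZero N) (f g k : Fin n → ZMod N), (∀ r c, f r + g c = k (L r c)) ∧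
      Surjective f ∧ Surjective g ∧ ∑ c, g c ≠ 0 := by
  classical
  obtain ⟨f, g, k, hs, hne⟩ := exists_char L h
  rcases Nat.eq_zero_or_pos n with rfl | hn
  · simp at hne
  let o : Fin n := ⟨0, hn⟩
  let f' : Fin n → AddCircle (1 : ℚ) := fun r => f r - f o
  let g' : Fin n → AddCircle (1 : ℚ) := fun r => g r - g o
  let k' : Fin n → AddCircle (1 : ℚ) := fun s => -k s - f o - g o
  have hs' : ∀ r c, f' r + g' c = k' (L r c) := by
    intro r c
    have := hs r c
    simp only [f', g', k']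
    rw [← eq_neg_iff_add_eq_zero] at this
    rw [← this]; abel
  have hf0 : f' o = 0 := sub_self _
  have hg0 : g' o = 0 := sub_self _
  have hrow : ∀ r, Bijective (L r) := fun r => Finite.injective_iff_bijective.1 (hL.1 r)
  have hcol : ∀ c, Bijective (fun r => L r c) :=
    fun c => Finite.injective_iff_bijective.1 (hL.2 c)
  have hfk : ∀ r, f' r = k' (L r o) := fun r => by rw [← hs', hg0, add_zero]
  have hgk : ∀ c, g' c = k' (L o c) := fun c => by rw [← hs', hf0, zero_add]
  have hsum : ∑ c, g' c ≠ 0 := by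
    intro h0
    apply hne
    have e1 : ∑ r, f' r = ∑ s, k' s := by
      simp only [hfk]
      exact (hcol o).sum_comp k'
    simp only [f', g', k', Finset.sum_sub_distrib, Finset.sum_neg_distrib] at e1 h0
    have e2 := sub_eq_zero.1 h0
    have e3 := sub_eq_zero.2 e1
    rw [← e3, e2]; abel
  have hkf : ∀ s, ∃ r, k' s = f' r := fun s => by
    obtain ⟨r, hr⟩ := (hcol o).2 s
    exact ⟨r, by rw [hfk, ← hr]⟩
  have hkg : ∀ s, ∃ c, k' s = g' c := fun s => by
    obtain ⟨r, hr⟩ := (hrow o).2 s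
    exact ⟨r, by rw [hgk, ← hr]⟩
  let K : AddSubgroup (AddCircle (1 : ℚ)) :=
    { carrier := Set.range k'
      add_mem' := by
        rintro _ _ ⟨s, rfl⟩ ⟨t, rfl⟩
        obtain ⟨r, hr⟩ := hkf s
        obtain ⟨c, hc⟩ := hkg t
        exact ⟨L r c, by rw [hr, hc, hs']⟩
      zero_mem' := ⟨L o o, by rw [← hfk, hf0]⟩
      neg_mem' := by
        rintro _ ⟨s, rfl⟩
        obtain ⟨r, hr⟩ := hkf s
        obtain ⟨c, hc⟩ := (hrow r).2 (L o o)
        refine ⟨L o c, ?_⟩
        rw [← hgk, hr, eq_neg_iff_add_eq_zero, add_comm, hs', hc, ← hfk, hf0] }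
  have hfin : Finite K := (Set.finite_range k').to_subtype
  let e := (zmodAddCyclicAddEquiv (cyc K)).symm
  let kk : Fin n → K := fun s => ⟨k' s, s, rfl⟩
  have hkk : Surjective kk := by
    rintro ⟨_, s, rfl⟩; exact ⟨s, rfl⟩
  refine ⟨Nat.card K, ⟨Nat.card_pos.ne'⟩, fun r => e (kk (L r o)), fun c => e (kk (L o c)),
    fun s => e (kk s), fun r c => ?_, e.surjective.comp (hkk.comp (hcol o).2),
    e.surjective.comp (hkk.comp (hrow o).2), ?_⟩
  · rw [← map_add]
    congr 1
    apply Subtype.ext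
    show k' (L r o) + k' (L o c) = k' (L r c)
    rw [← hfk, ← hgk, hs']
  · rw [← map_sum]
    intro h0
    apply hsum
    have h1 := e.injective (h0.trans (map_zero e).symm)
    have h2 := congrArg K.subtype h1
    rw [map_sum, map_zero] at h2
    simp only [hgk]
    exact h2

lemma parity {N q : ℕ} [NeZero N] (h : q • ∑ a : ZMod N, a ≠ 0) : Even N ∧ Odd q := by
  have h2 : 2 • ∑ a : ZMod N, a = 0 := by
    have : ∑ a : ZMod N, a = ∑ a : ZMod N, -a := (Equiv.sum_comp (Equiv.neg (ZMod N)) id).symm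
    rw [two_nsmul]
    nth_rewrite 1 [this]
    rw [← Finset.sum_add_distrib]; simp
  constructor
  · by_contra hN
    obtain ⟨t, ht⟩ := Nat.not_even_iff_odd.1 hN
    have h3 : N • ∑ a : ZMod N, a = 0 := by simp
    have h4 : (2 * t + 1) • ∑ a : ZMod N, a = 0 := by rw [← ht]; exact h3
    rw [add_nsmul, mul_nsmul, h2, nsmul_zero, zero_add, one_nsmul] at h4
    exact h (by rw [h4, nsmul_zero])
  · by_contra hq
    obtain ⟨t, ht⟩ := Nat.not_odd_iff_even.1 hq
    apply h
    rw [ht, ← two_mul, mul_nsmul, h2, nsmul_zero]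

lemma exists_equiv {n q : ℕ} {A : Type} [DecidableEq A] (f : Fin n → A)
    (hf : ∀ a, #{r | f r = a} = q) :
    ∃ e : A × Fin q ≃ Fin n, ∀ a i, f (e (a, i)) = a := by
  have : ∀ a, Nonempty ({r // f r = a} ≃ Fin q) := fun a =>
    ⟨Fintype.equivFinOfCardEq (by rw [Fintype.card_subtype, hf])⟩
  let E := fun a => (this a).some
  refine ⟨((Equiv.sigmaEquivProd A (Fin q)).symm.trans
    (Equiv.sigmaCongrRight fun a => (E a).symm)).trans (Equiv.sigmaFiberEquiv f), fun a i => ?_⟩
  exact ((E a).symm i).2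

theorem result (n : ℕ) (L : Fin n → Fin n → Fin n) (hL : NoRepeat L)
    (h : ¬ ∃ (k : ℤ) (θ : Fin n → Fin n → ℤ), Odd k ∧ IsWeight L k θ) :
    ∃ (m q : ℕ) (ρ γ : ZMod (2 * m) × Fin q ≃ Fin n), 1 ≤ m ∧ Odd q ∧
      (∀ i j, NoRepeat (fun a b => L (ρ (i, a)) (γ (j, b))) ∧
        (symbols fun a b => L (ρ (i, a)) (γ (j, b))).ncard = q) ∧
      ∀ i j i' j', (symbols fun a b => L (ρ (i, a)) (γ (j, b))) =
        (symbols fun a b => L (ρ (i', a)) (γ (j', b))) ↔ i + j = i' + j' := by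
  classical
  obtain ⟨N, hN, f, g, k, hs, hf, hg, hsum⟩ :=
    exists_zmod L hL fun ⟨θ, hθ⟩ => h ⟨1, θ, odd_one, hθ⟩
  let q := #{c | g c = 0}
  have hk : ∀ a, #{s | k s = a} = q := by
    intro a
    obtain ⟨r, hr⟩ := hf a
    have := card_shift (L r) (hL.1 r) g k (f r) (hs r) 0
    rw [add_zero, hr] at this
    exact this.symm
  have hgq : ∀ b, #{c | g c = b} = q := by
    intro b
    obtain ⟨r, hr⟩ := hf 0
    rw [card_shift (L r) (hL.1 r) g k (f r) (hs r) b, hk]
  have hfq : ∀ b, #{c | f c = b} = q := by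
    intro b
    obtain ⟨c, hc⟩ := hg 0
    rw [card_shift (fun r => L r c) (hL.2 c) f k (g c) (fun r => by rw [add_comm, hs]) b, hk]
  have hsq : ∑ c, g c = q • ∑ a : ZMod N, a := by
    rw [← Finset.sum_fiberwise (s := univ) (g := g) (f := g), Finset.smul_sum]
    refine Finset.sum_congr rfl fun a _ => ?_
    rw [Finset.sum_congr rfl (g := fun _ => a) fun c hc => (mem_filter.1 hc).2, sum_const, hgq]
  obtain ⟨⟨m, hm⟩, hq⟩ := parity (hsq ▸ hsum)
  have hm2 : N = 2 * m := by omega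
  subst hm2
  have hm1 : 1 ≤ m := by have := hN.out; omega
  obtain ⟨ρ, hρ⟩ := exists_equiv f hfq
  obtain ⟨γ, hγ⟩ := exists_equiv g hgq
  have hq0 : 0 < q := hq.pos
  have hsy : ∀ i j, (symbols fun a b => L (ρ (i, a)) (γ (j, b))) = {s | k s = i + j} := by
    intro i j
    ext s
    constructor
    · rintro ⟨a, b, rfl⟩
      show k _ = _
      rw [← hs, hρ, hγ]
    · intro hs'
      have hs'' : k s = i + j := hs'
      obtain ⟨c, hc⟩ := (Finite.injective_iff_bijective.1 (hL.1 (ρ (i, ⟨0, hq0⟩)))).2 s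
      obtain ⟨⟨j', b⟩, rfl⟩ := γ.surjective c
      have := hs (ρ (i, ⟨0, hq0⟩)) (γ (j', b))
      rw [hc, hs'', hρ, hγ] at this
      obtain rfl := add_left_cancel this
      exact ⟨_, b, hc⟩
  have hnc : ∀ a, {s | k s = a}.ncard = q := by
    intro a
    rw [← hk a, ← Set.ncard_coe_finset]
    congr 1
    ext s; simp
  refine ⟨m, q, ρ, γ, hm1, hq, fun i j => ⟨⟨fun a b b' hb => ?_, fun b a a' ha => ?_⟩, ?_⟩,
    fun i j i' j' => ?_⟩
  · simpa using hL.1 _ hb
  · simpa using hL.2 _ ha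
  · rw [hsy, hnc]
  · rw [hsy, hsy]
    refine ⟨fun hh => ?_, fun hh => by rw [hh]⟩
    have hne : {s | k s = i + j}.Nonempty := Set.nonempty_of_ncard_ne_zero (by rw [hnc]; omega)
    obtain ⟨s, hs1⟩ := hne
    have hs2 := hh ▸ hs1
    exact Eq.trans (Eq.symm hs1) hs2

end Pool.Agent.Results.MP_b7f7f4_co.Blocks
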